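import Pool.Agent.Results.MP_f58427_nt.AlmostAllShortPairsFullRange
import Pool.Agent.V35.PCW

/-!
# Montgomery's theorem at the heights `α v_n`, for almost all `α`

Let `0 < η < 1`, let `v_n ≥ 1` be a sequence with exponent of convergence zero, for example `v_n = b ^ n` with any `b > 1`,
and `H_n` lengths with `v_n ^ η ≤ H_n ≤ v_n / 8`. Unconditionally, for Lebesgue-almost all `α ∈ [1, 2]` the pair correlation
functions `F_n(a) = (H_n log v_n / 2π)⁻¹ ∑ v_n ^ (a (ρ - ρ')) exp ((ρ - ρ')² / 4)` of ALL the nontrivial zeros of zeta with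
ordinates in the short interval `(α v_n, α v_n + H_n]` converge as predicted by Montgomery, to `δ_0 + |a| da` on the
interval `|a| < (1 + η) / 2`: for all `μ < (1 + η) / 2` and all Lipschitz test functions `ψ` which vanish outside `(-μ, μ)`,
`∫ ψ(a) F_n(a) da → ψ(0) + ∫ |a| ψ(a) da`. The exceptional null set does not depend on `μ` and `ψ`. (Replacing `v_n` by
`A v_n` one gets almost all `α ∈ [A, 2 A]`.) So the place of the short intervals can be prescribed up to a factor `α`.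
-/

set_option autoImplicit false

open Filter Topology Complex MeasureTheory

namespace Pool.Agent.Results.MP_f58427_nt.AlmostEveryHeight

open AlmostAllShortPairsFullRange Pool.Agent.V35.WM Pool.Agent.V35.PCW

/-- the real form of the pair correlation function -/
noncomputable def gr (t H T a : ℝ) : ℝ :=
  (H * Real.log T / (2 * Real.pi))⁻¹ * H370.A2.JN riemannZeta t (t + H) (a * Real.log T)

lemma gr_nonneg {t H T : ℝ} (hH : 0 ≤ H) (hT : 1 ≤ T) (a : ℝ) : 0 ≤ gr t H T a := by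
  unfold gr H370.A2.JN H370.JJ
  have h1 : 0 ≤ Real.log T := Real.log_nonneg hT
  have h2 := Real.pi_pos
  have h3 : 0 ≤ ∫ x : ℝ, ‖H370.AA riemannZeta t (t + H) (a * Real.log T) x‖ ^ 2 :=
    integral_nonneg fun x => by positivity
  positivity

lemma gr_cont {t H T : ℝ} (ht : 1 ≤ t) : Continuous (gr t H T) := by
  have hJc := H370.JJ_cont H370.good_zeta (U2 := t + H) ht
  unfold gr H370.A2.JN
  exact continuous_const.mul ((hJc.comp (by fun_prop)).div_const _)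

lemma int_F {t H T : ℝ} (ht : 1 ≤ t) (hT : 0 < T) (μ : ℝ) (ψ : ℝ → ℝ) :
    ∫ a in (-μ)..μ, (ψ a : ℂ) * F t H T a = ((∫ a in (-μ)..μ, ψ a * gr t H T a : ℝ) : ℂ) := by
  rw [← intervalIntegral.integral_ofReal]
  refine intervalIntegral.integral_congr fun a _ => ?_
  show (ψ a : ℂ) * F t H T a = _
  rw [F_eq t H T a ht hT]
  unfold gr
  push_cast
  ring

/-- one test function -/
lemma one_test {η : ℝ} (hη0 : 0 < η) (hη1 : η < 1) {v : ℕ → ℝ} (hv : ∀ n, 1 ≤ v n) (hE : ExpLe v 0)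
    {H : ℕ → ℝ} (hH : ∀ᶠ n in atTop, (v n) ^ η ≤ H n ∧ H n ≤ v n / 8) {μ : ℝ} (hμ0 : 0 < μ) (hμ : μ < (1 + η) / 2)
    {ψ : ℝ → ℝ} (hψ : Lip0 μ ψ) :
    ∀ᵐ α : ℝ, α ∈ Set.Icc (1 : ℝ) 2 →
      Tendsto (fun n => ∫ a in (-μ)..μ, ψ a * gr (α * v n) (H n) (v n) a) atTop (𝓝 (Mf ψ μ)) := by
  have htv : Tendsto v atTop atTop := tendsto_of_expLe (fun n => lt_of_lt_of_le one_pos (hv n)) le_rfl hE
  have key : ∀ k : ℕ, ∀ᵐ α : ℝ, α ∈ Set.Icc (1 : ℝ) 2 →
      ∀ᶠ n in atTop, |(∫ a in (-μ)..μ, ψ a * gr (α * v n) (H n) (v n) a) - Mf ψ μ| ≤ 1 / ((k : ℝ) + 1) := by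
    intro k
    have hε : (0 : ℝ) < 1 / ((k : ℝ) + 1) := by positivity
    obtain ⟨δ, hδ, T₀, hmain⟩ := AlmostAllShortPairsFullRange.result η μ (1 / ((k : ℝ) + 1)) hη0 hη1 hμ0 hμ hε ψ hψ.1 hψ.2
    obtain ⟨N, hN⟩ := eventually_atTop.1 ((htv.eventually_ge_atTop T₀).and hH)
    set s : ℕ → Set ℝ := fun n => (fun x => v (n + N) * x) ⁻¹' {t : ℝ | v (n + N) ≤ t ∧ t ≤ 2 * v (n + N) ∧
      1 / ((k : ℝ) + 1) < ‖(∫ a in (-μ)..μ, (ψ a : ℂ) * F t (H (n + N)) (v (n + N)) a) - (M ψ μ : ℂ)‖} with hs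
    have hvol : ∀ n, volume (s n) ≤ ENNReal.ofReal ((v (n + N)) ^ (-δ)) := by
      intro n
      obtain ⟨h1, h2, h3⟩ := hN (n + N) (by omega)
      have hvp : 0 < v (n + N) := lt_of_lt_of_le one_pos (hv _)
      rw [hs]
      simp only
      rw [Real.volume_preimage_mul_left hvp.ne']
      refine (mul_le_mul_right (hmain (v (n + N)) h1 (H (n + N)) h2 h3) _).trans ?_
      rw [← ENNReal.ofReal_mul (abs_nonneg _)]
      apply ENNReal.ofReal_le_ofReal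
      rw [abs_of_pos (inv_pos.2 hvp), ← Real.rpow_neg_one, ← Real.rpow_add hvp]
      apply le_of_eq
      congr 1
      ring
    have hsum : ∑' n, volume (s n) ≠ ⊤ := by
      have h1 : Summable fun n => (v (n + N)) ^ (-δ) := (summable_nat_add_iff N).2 (hE δ hδ)
      exact ne_top_of_le_ne_top h1.tsum_ofReal_ne_top (ENNReal.tsum_le_tsum hvol)
    filter_upwards [ae_eventually_notMem hsum] with α hα hα12
    obtain ⟨N', hN'⟩ := eventually_atTop.1 hα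
    filter_upwards [eventually_ge_atTop (N' + N)] with n hn
    obtain ⟨m, rfl⟩ : ∃ m, n = m + N := ⟨n - N, by omega⟩
    have h2 := hN' m (by omega)
    have hvp : 1 ≤ v (m + N) := hv _
    have hα1 : 1 ≤ α * v (m + N) := by nlinarith [hα12.1]
    by_contra hcon
    push Not at hcon
    apply h2
    show v (m + N) ≤ v (m + N) * α ∧ v (m + N) * α ≤ 2 * v (m + N) ∧ _
    refine ⟨by nlinarith [hα12.1], by nlinarith [hα12.2], ?_⟩
    have h5 : (fun x => v (m + N) * x) α = α * v (m + N) := mul_comm _ _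
    rw [h5, int_F hα1 (by linarith) μ ψ]
    have h3 : M ψ μ = Mf ψ μ := rfl
    rw [h3, ← Complex.ofReal_sub, Complex.norm_real, Real.norm_eq_abs]
    exact hcon
  have key' := ae_all_iff.2 key
  filter_upwards [key'] with α hα hα12
  rw [Metric.tendsto_atTop]
  intro ε hε
  obtain ⟨k, hk⟩ := exists_nat_one_div_lt hε
  obtain ⟨N, hN⟩ := eventually_atTop.1 (hα k hα12)
  refine ⟨N, fun n hn => ?_⟩
  rw [Real.dist_eq]
  exact lt_of_le_of_lt (hN n hn) hk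

/-- **Theorem.** Let `0 < η < 1`, `v ≥ 1` a sequence with exponent of convergence zero and
`v_n ^ η ≤ H_n ≤ v_n / 8` for large `n`. For almost all `α ∈ [1, 2]`, for all `0 < μ < (1 + η) / 2` and all Lipschitz
functions `ψ` which vanish outside `(-μ, μ)`: `∫ ψ(a) F(α v_n, H_n, v_n, a) da → ψ(0) + ∫ |a| ψ(a) da`, where
`F(t, H, T, a)` is the pair correlation function of all the nontrivial zeros of zeta with ordinates in `(t, t + H]`. The
sequences `b ^ n`, `b > 1`, have exponent of convergence zero. -/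
theorem result :
    (∀ η : ℝ, 0 < η → η < 1 → ∀ v : ℕ → ℝ, (∀ n, 1 ≤ v n) → ExpLe v 0 →
      ∀ H : ℕ → ℝ, (∀ᶠ n in atTop, (v n) ^ η ≤ H n ∧ H n ≤ v n / 8) →
      ∀ᵐ α : ℝ, α ∈ Set.Icc (1 : ℝ) 2 → ∀ (μ : ℝ) (ψ : ℝ → ℝ), 0 < μ → μ < (1 + η) / 2 →
        (∃ K : ℝ, ∀ x y, |ψ x - ψ y| ≤ K * |x - y|) → (∀ x, μ ≤ |x| → ψ x = 0) →
        Tendsto (fun n => ∫ a in (-μ)..μ, (ψ a : ℂ) * F (α * v n) (H n) (v n) a) atTop (𝓝 (M ψ μ : ℂ))) ∧
    (∀ b : ℝ, 1 < b → ExpLe (fun n : ℕ => b ^ n) 0) := by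
  refine ⟨?_, fun b hb => expLe_geom b hb⟩
  intro η hη0 hη1 v hv hE H hH
  choose D hD hDd using fun μ : ℝ => exists_dense μ
  have htv : Tendsto v atTop atTop := tendsto_of_expLe (fun n => lt_of_lt_of_le one_pos (hv n)) le_rfl hE
  have a1 : ∀ᵐ α : ℝ, ∀ μ : ℚ, ∀ j : ℕ, 0 < (μ : ℝ) → (μ : ℝ) < (1 + η) / 2 → α ∈ Set.Icc (1 : ℝ) 2 →
      Tendsto (fun n => ∫ a in (-(μ : ℝ))..μ, D μ j a * gr (α * v n) (H n) (v n) a) atTop (𝓝 (Mf (D μ j) μ)) := by
    rw [ae_all_iff]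
    intro μ
    rw [ae_all_iff]
    intro j
    by_cases h0 : 0 < (μ : ℝ) ∧ (μ : ℝ) < (1 + η) / 2
    · filter_upwards [one_test hη0 hη1 hv hE hH h0.1 h0.2 (hD μ j)] with α hα _ _ hα12
      exact hα hα12
    · exact Eventually.of_forall fun α h1 h2 => absurd ⟨h1, h2⟩ h0
  have a2 : ∀ᵐ α : ℝ, ∀ μ₁ μ₂ : ℚ, 0 < (μ₁ : ℝ) → (μ₁ : ℝ) < μ₂ → (μ₂ : ℝ) < (1 + η) / 2 →
      α ∈ Set.Icc (1 : ℝ) 2 →
      Tendsto (fun n => ∫ a in (-(μ₂ : ℝ))..μ₂, trap μ₁ μ₂ a * gr (α * v n) (H n) (v n) a) atTop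
        (𝓝 (Mf (trap μ₁ μ₂) μ₂)) := by
    rw [ae_all_iff]
    intro μ₁
    rw [ae_all_iff]
    intro μ₂
    by_cases h0 : 0 < (μ₁ : ℝ) ∧ (μ₁ : ℝ) < μ₂ ∧ (μ₂ : ℝ) < (1 + η) / 2
    · filter_upwards [one_test hη0 hη1 hv hE hH (h0.1.trans h0.2.1) h0.2.2 (trap_lip0 h0.2.1)] with α hα _ _ _ hα12
      exact hα hα12
    · exact Eventually.of_forall fun α h1 h2 h3 => absurd ⟨h1, h2, h3⟩ h0
  filter_upwards [a1, a2] with α h1 h2 hα12 μ ψ hμ0 hμ hψ1 hψ2
  have hHn : ∀ᶠ n in atTop, 0 ≤ H n := by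
    filter_upwards [hH] with n hn
    exact le_trans (Real.rpow_nonneg (by linarith [hv n]) _) hn.1
  obtain ⟨N, hN⟩ := eventually_atTop.1 hHn
  have hαv : ∀ n, 1 ≤ α * v n := fun n => by nlinarith [hα12.1, hv n]
  -- the densities, from the index `N` on
  have hlim := all_of_countable (m₀ := (1 + η) / 2) (by linarith) D hD hDd
    (fun n a => gr (α * v (n + N)) (H (n + N)) (v (n + N)) a)
    (fun n a => gr_nonneg (hN _ (by omega)) (hv _) a)
    (Eventually.of_forall fun n => gr_cont (hαv _))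
    (fun μ' h3 h4 j => (h1 μ' j h3 h4 hα12).comp (tendsto_add_atTop_nat N))
    (fun μ₁ μ₂ h3 h4 h5 => (h2 μ₁ μ₂ h3 h4 h5 hα12).comp (tendsto_add_atTop_nat N))
    μ ψ hμ0 hμ ⟨hψ1, hψ2⟩
  rw [← tendsto_add_atTop_iff_nat N]
  have h3 : (M ψ μ : ℂ) = ((Mf ψ μ : ℝ) : ℂ) := rfl
  rw [h3]
  have h4 := (Complex.continuous_ofReal.tendsto (Mf ψ μ)).comp hlim
  refine h4.congr fun n => ?_
  simp only [Function.comp_def]
  exact (int_F (hαv _) (by linarith [hv (n + N)]) μ ψ).symm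

end Pool.Agent.Results.MP_f58427_nt.AlmostEveryHeight
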