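import Pool.Agent.V1161.CM.Pairs

set_option autoImplicit false

/-!
# The pair correlation conjecture in Cesaro mean

No hypothesis is assumed.  For `1 ≤ A ≤ √(log T)` the mean value over `0 ≤ a ≤ A` of
`N*(T, a)` minus the value predicted by the pair correlation conjecture is
`-(Q(T) - (T log T)/2π)/2` up to `O((T log T)/A)`, where `Q(T)` is the number of pairs of equal
ordinates.  Hence the pair correlation conjecture holds in Cesaro mean if and only if almost all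
zeros are simple and alone at their height.
-/

open MeasureTheory Filter Topology

namespace Pool.Agent.Results.MP_f58427_nt.CesaroMean

/-- the nontrivial zeros of `ζ` -/
def ZZ : Set ℂ := {s : ℂ | riemannZeta s = 0 ∧ 0 < s.re ∧ s.re < 1}

/-- multiplicity of `s` as a zero of the Riemann zeta function (order of vanishing at `s`) -/
noncomputable def zmult (s : ℂ) : ℕ := analyticOrderNatAt riemannZeta s

/-- the pairs counted by `N*(T, a)` -/
def PS (T a : ℝ) : Set (ℂ × ℂ) := {p : ℂ × ℂ | p.1 ∈ ZZ ∧ p.2 ∈ ZZ ∧ 0 < p.1.im ∧ p.1.im ≤ T ∧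
    0 < p.1.im - p.2.im ∧ p.1.im - p.2.im ≤ 2 * Real.pi * a / Real.log T}

/-- `N*(T, a)` as in the problem: the number of ordered pairs `(γ, γ')` of ordinates of nontrivial
zeros, counted with multiplicity, with `0 < γ ≤ T` and `0 < γ - γ' ≤ 2πa / log T` -/
noncomputable def Nstar (T a : ℝ) : ℕ := ∑ᶠ p ∈ PS T a, zmult p.1 * zmult p.2

/-- the pairs of zeros with the same ordinate in `(0, T]` -/
def QS (T : ℝ) : Set (ℂ × ℂ) :=
  {p : ℂ × ℂ | p.1 ∈ ZZ ∧ p.2 ∈ ZZ ∧ 0 < p.1.im ∧ p.1.im ≤ T ∧ p.1.im = p.2.im}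

/-- the number of ordered pairs of equal ordinates in `(0, T]`, counted with multiplicity; an
ordinate of total multiplicity `m` contributes `m ^ 2` -/
noncomputable def Q (T : ℝ) : ℕ := ∑ᶠ p ∈ QS T, zmult p.1 * zmult p.2

/-- the zeros with ordinate in `(0, T]` that are multiple or not alone at their height -/
def XS (T : ℝ) : Set ℂ :=
  {s : ℂ | s ∈ ZZ ∧ 0 < s.im ∧ s.im ≤ T ∧ (zmult s ≠ 1 ∨ ∃ s' ∈ ZZ, s' ≠ s ∧ s'.im = s.im)}

/-- their number, counted with multiplicity -/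
noncomputable def Nx (T : ℝ) : ℕ := ∑ᶠ s ∈ XS T, zmult s

/-- the factor of `(T log T)/2π` in the value predicted by the pair correlation conjecture for
`N*(T, a)` -/
noncomputable def g (a : ℝ) : ℝ := ∫ u in (0 : ℝ)..a, (1 - Real.sinc (Real.pi * u) ^ 2)

open Pool.Agent.TH850.UV (NS mS mS_nonneg)
open Pool.Agent.V11270.KC (Z0 mem_Z0 Z0_mono count_all)
open Pool.Agent.V1161.CM (PP sq_eq win_int MM second mean_g ML QS_ML ML_ge ML_ge2 third count_upper)

/-- zeros with ordinate in `[A, B]` -/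
def Zab (A B : ℝ) : Set ℂ := {s : ℂ | s ∈ ZZ ∧ A ≤ s.im ∧ s.im ≤ B}

theorem Zab_finite (A B : ℝ) : (Zab A B).Finite := by
  have hcomp : IsCompact (Set.Icc (0 : ℝ) 1 ×ℂ Set.Icc A B) :=
    isCompact_Icc.reProdIm isCompact_Icc
  refine hcomp.inter_riemannZetaZeros_finite.subset ?_
  rintro s ⟨⟨h0, h1, h2⟩, h3, h4⟩
  exact ⟨⟨⟨h1.le, h2.le⟩, ⟨h3, h4⟩⟩, h0⟩

/-- all the sets of zeros and pairs that are summed over are finite -/
theorem sets_finite (T a : ℝ) : (PS T a).Finite ∧ (QS T).Finite ∧ (XS T).Finite := by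
  refine ⟨?_, ?_, ?_⟩
  · refine ((Zab_finite 0 T).prod (Zab_finite (-(2 * Real.pi * a / Real.log T)) T)).subset ?_
    rintro ⟨s, s'⟩ ⟨h1, h2, h3, h4, h5, h6⟩
    simp only at h3 h4 h5 h6
    exact ⟨⟨h1, h3.le, h4⟩, ⟨h2, by linarith, by linarith⟩⟩
  · refine ((Zab_finite 0 T).prod (Zab_finite 0 T)).subset ?_
    rintro ⟨s, s'⟩ ⟨h1, h2, h3, h4, h5⟩
    simp only at h3 h4 h5
    exact ⟨⟨h1, h3.le, h4⟩, ⟨h2, by linarith, by linarith⟩⟩
  · exact (Zab_finite 0 T).subset fun s hs => ⟨hs.1, hs.2.1.le, hs.2.2.1⟩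

/-- the zeros with ordinate in `[-1, T]` -/
noncomputable def ZW (T : ℝ) : Finset ℂ := (Zab_finite (-1) T).toFinset

lemma mem_ZW {T : ℝ} {s : ℂ} : s ∈ ZW T ↔ s ∈ ZZ ∧ -1 ≤ s.im ∧ s.im ≤ T := by
  unfold ZW
  rw [Set.Finite.mem_toFinset]
  rfl

lemma mem_Z0' {T : ℝ} {s : ℂ} : s ∈ Z0 T ↔ s ∈ ZZ ∧ 0 < s.im ∧ s.im ≤ T := by
  rw [mem_Z0]
  constructor
  · rintro ⟨h1, h2, h3, h4, h5⟩
    exact ⟨⟨h5, h1, h2⟩, h3, h4⟩
  · rintro ⟨⟨h5, h1, h2⟩, h3, h4⟩
    exact ⟨h1, h2, h3, h4, h5⟩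

lemma mS_eq (s : ℂ) : mS s = (zmult s : ℝ) := rfl

lemma one_le_zmult {T : ℝ} {s : ℂ} (hs : s ∈ Z0 T) : 1 ≤ zmult s := by
  rw [mem_Z0'] at hs
  exact H370.Loc.mult_pos' H370.good_zeta hs.2.1 hs.1.1

/-- the number of pairs as a sum over a fixed set -/
lemma Nstar_eq {T a h : ℝ} (h1 : 2 * Real.pi * a / Real.log T ≤ h) (hh : h ≤ 1) :
    (Nstar T a : ℝ) = ∑ s ∈ Z0 T, ∑ s' ∈ ZW T, mS s * mS s' *
      (if 0 < s.im - s'.im ∧ s.im - s'.im ≤ 2 * Real.pi * a / Real.log T then 1 else 0) := by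
  classical
  unfold Nstar
  rw [finsum_mem_eq_finite_toFinset_sum _ (sets_finite T a).1]
  push_cast
  rw [← Finset.sum_product' (Z0 T) (ZW T) (fun s s' => mS s * mS s' *
      (if 0 < s.im - s'.im ∧ s.im - s'.im ≤ 2 * Real.pi * a / Real.log T then 1 else 0))]
  have h2 : ∀ p : ℂ × ℂ, mS p.1 * mS p.2 *
      (if 0 < p.1.im - p.2.im ∧ p.1.im - p.2.im ≤ 2 * Real.pi * a / Real.log T then (1 : ℝ) else 0)
      = if 0 < p.1.im - p.2.im ∧ p.1.im - p.2.im ≤ 2 * Real.pi * a / Real.log T then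
        mS p.1 * mS p.2 else 0 := by
    intro p
    split_ifs <;> simp
  simp_rw [h2]
  rw [← Finset.sum_filter]
  refine Finset.sum_congr ?_ fun p _ => rfl
  ext p
  rw [Set.Finite.mem_toFinset, Finset.mem_filter, Finset.mem_product, mem_Z0', mem_ZW]
  constructor
  · rintro ⟨g1, g2, g3, g4, g5, g6⟩
    exact ⟨⟨⟨g1, g3, g4⟩, g2, by linarith, by linarith⟩, g5, g6⟩
  · rintro ⟨⟨⟨g1, g3, g4⟩, g2, _, _⟩, g5, g6⟩
    exact ⟨g1, g2, g3, g4, g5, g6⟩

lemma Q_eq (T : ℝ) : (Q T : ℝ) = Pool.Agent.V1161.CM.QS (Z0 T) := by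
  classical
  unfold Q Pool.Agent.V1161.CM.QS
  rw [finsum_mem_eq_finite_toFinset_sum _ (sets_finite T 0).2.1]
  push_cast
  rw [← Finset.sum_product' (Z0 T) (Z0 T) (fun s s' => mS s * mS s' *
      (if s.im = s'.im then 1 else 0))]
  have h2 : ∀ p : ℂ × ℂ, mS p.1 * mS p.2 * (if p.1.im = p.2.im then (1 : ℝ) else 0)
      = if p.1.im = p.2.im then mS p.1 * mS p.2 else 0 := by
    intro p
    split_ifs <;> simp
  simp_rw [h2]
  rw [← Finset.sum_filter]
  refine Finset.sum_congr ?_ fun p _ => rfl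
  ext p
  rw [Set.Finite.mem_toFinset, Finset.mem_filter, Finset.mem_product, mem_Z0', mem_Z0']
  constructor
  · rintro ⟨g1, g2, g3, g4, g5⟩
    exact ⟨⟨⟨g1, g3, g4⟩, g2, by linarith, by linarith⟩, g5⟩
  · rintro ⟨⟨⟨g1, g3, g4⟩, g2, _, _⟩, g5⟩
    exact ⟨g1, g2, g3, g4, g5⟩

lemma ite_mono (d L : ℝ) (hL : 0 < L) :
    Monotone fun a : ℝ => if 0 < d ∧ d ≤ 2 * Real.pi * a / L then (1 : ℝ) else 0 := by
  intro a b hab
  have h1 : 2 * Real.pi * a / L ≤ 2 * Real.pi * b / L := by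
    have := Real.pi_pos
    gcongr
  show (if 0 < d ∧ d ≤ 2 * Real.pi * a / L then (1 : ℝ) else 0) ≤
    (if 0 < d ∧ d ≤ 2 * Real.pi * b / L then (1 : ℝ) else 0)
  by_cases h2 : 0 < d ∧ d ≤ 2 * Real.pi * a / L
  · rw [if_pos h2, if_pos ⟨h2.1, h2.2.trans h1⟩]
  · rw [if_neg h2]
    split_ifs <;> norm_num

/-- the integral of the pair counts -/
lemma Nstar_integral {T A h : ℝ} (hL : 0 < Real.log T) (hA : 0 ≤ A)
    (h1 : h = 2 * Real.pi * A / Real.log T) (hh : h ≤ 1) :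
    IntervalIntegrable (fun a => (Nstar T a : ℝ)) volume 0 A ∧
    ∫ a in (0 : ℝ)..A, (Nstar T a : ℝ) = Real.log T / (2 * Real.pi) *
      ∑ s ∈ Z0 T, ∑ s' ∈ ZW T, mS s * mS s' *
        (if 0 < s.im - s'.im then max (h - (s.im - s'.im)) 0 else 0) := by
  have hpi := Real.pi_pos
  have h2 : ∀ a ∈ Set.uIcc (0 : ℝ) A, (Nstar T a : ℝ) = ∑ s ∈ Z0 T, ∑ s' ∈ ZW T, mS s * mS s' *
      (if 0 < s.im - s'.im ∧ s.im - s'.im ≤ 2 * Real.pi * a / Real.log T then 1 else 0) := by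
    intro a ha
    rw [Set.uIcc_of_le hA] at ha
    refine Nstar_eq (h := h) ?_ hh
    rw [h1]
    have := ha.2
    gcongr
  have h3 : ∀ s s' : ℂ, IntervalIntegrable (fun a : ℝ => mS s * mS s' *
      (if 0 < s.im - s'.im ∧ s.im - s'.im ≤ 2 * Real.pi * a / Real.log T then (1 : ℝ) else 0))
      volume 0 A := fun s s' =>
    ((ite_mono (s.im - s'.im) (Real.log T) hL).intervalIntegrable).const_mul _
  have h4 : ∀ s : ℂ, IntervalIntegrable (fun a : ℝ => ∑ s' ∈ ZW T, mS s * mS s' *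
      (if 0 < s.im - s'.im ∧ s.im - s'.im ≤ 2 * Real.pi * a / Real.log T then (1 : ℝ) else 0))
      volume 0 A := by
    intro s
    have := IntervalIntegrable.sum (ZW T) (f := fun s' a => mS s * mS s' *
      (if 0 < s.im - s'.im ∧ s.im - s'.im ≤ 2 * Real.pi * a / Real.log T then (1 : ℝ) else 0))
      fun s' _ => h3 s s'
    refine this.congr fun a _ => ?_
    rw [Finset.sum_apply]
  have h5 : IntervalIntegrable (fun a : ℝ => ∑ s ∈ Z0 T, ∑ s' ∈ ZW T, mS s * mS s' *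
      (if 0 < s.im - s'.im ∧ s.im - s'.im ≤ 2 * Real.pi * a / Real.log T then (1 : ℝ) else 0))
      volume 0 A := by
    have := IntervalIntegrable.sum (Z0 T) (f := fun s a => ∑ s' ∈ ZW T, mS s * mS s' *
      (if 0 < s.im - s'.im ∧ s.im - s'.im ≤ 2 * Real.pi * a / Real.log T then (1 : ℝ) else 0))
      fun s _ => h4 s
    refine this.congr fun a _ => ?_
    rw [Finset.sum_apply]
  refine ⟨h5.congr fun a ha => (h2 a (Set.uIoc_subset_uIcc ha)).symm, ?_⟩
  rw [intervalIntegral.integral_congr h2,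
    intervalIntegral.integral_finsetSum fun s _ => h4 s, Finset.mul_sum]
  refine Finset.sum_congr rfl fun s _ => ?_
  rw [intervalIntegral.integral_finsetSum fun s' _ => h3 s s', Finset.mul_sum]
  refine Finset.sum_congr rfl fun s' _ => ?_
  rw [intervalIntegral.integral_const_mul, win_int hL hA, ← h1]
  ring

/-- the pairs with `γ' ≤ 0` do not matter -/
lemma negl : ∃ K : ℝ, 0 ≤ K ∧ ∀ T h : ℝ, 1 ≤ T → 0 ≤ h → h ≤ 1 →
    |(∑ s ∈ Z0 T, ∑ s' ∈ ZW T, mS s * mS s' *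
        (if 0 < s.im - s'.im then max (h - (s.im - s'.im)) 0 else 0)) - PP (Z0 T) h| ≤ K * h := by
  classical
  refine ⟨(∑ s ∈ Z0 1, mS s) * ∑ s' ∈ ZW 0, mS s', mul_nonneg
    (Finset.sum_nonneg fun s _ => mS_nonneg s) (Finset.sum_nonneg fun s _ => mS_nonneg s),
    fun T h hT hh0 hh1 => ?_⟩
  have hsub : Z0 T ⊆ ZW T := by
    intro s hs
    rw [mem_Z0'] at hs
    exact mem_ZW.2 ⟨hs.1, by linarith [hs.2.1], hs.2.2⟩
  have e1 : (∑ s ∈ Z0 T, ∑ s' ∈ ZW T, mS s * mS s' *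
        (if 0 < s.im - s'.im then max (h - (s.im - s'.im)) 0 else 0)) - PP (Z0 T) h =
      ∑ s ∈ Z0 T, ∑ s' ∈ ZW T \ Z0 T, mS s * mS s' *
        (if 0 < s.im - s'.im then max (h - (s.im - s'.im)) 0 else 0) := by
    unfold PP
    rw [← Finset.sum_sub_distrib]
    refine Finset.sum_congr rfl fun s _ => ?_
    rw [← Finset.sum_sdiff hsub]
    ring
  have hterm : ∀ s s' : ℂ, 0 ≤ mS s * mS s' *
      (if 0 < s.im - s'.im then max (h - (s.im - s'.im)) 0 else 0) := by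
    intro s s'
    refine mul_nonneg (mul_nonneg (mS_nonneg s) (mS_nonneg s')) ?_
    split_ifs
    · exact le_max_right _ _
    · exact le_rfl
  rw [e1, abs_of_nonneg (Finset.sum_nonneg fun s _ => Finset.sum_nonneg fun s' _ => hterm s s')]
  calc ∑ s ∈ Z0 T, ∑ s' ∈ ZW T \ Z0 T, mS s * mS s' *
        (if 0 < s.im - s'.im then max (h - (s.im - s'.im)) 0 else 0) ≤
      ∑ s ∈ Z0 T, ∑ s' ∈ ZW 0, (if s.im ≤ 1 then mS s * mS s' * h else 0) := by
        refine Finset.sum_le_sum fun s hs => ?_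
        have h3 : ZW T \ Z0 T ⊆ ZW 0 := by
          intro s' hs'
          rw [Finset.mem_sdiff, mem_ZW, mem_Z0'] at hs'
          rw [mem_ZW]
          refine ⟨hs'.1.1, hs'.1.2.1, ?_⟩
          by_contra hc
          push Not at hc
          exact hs'.2 ⟨hs'.1.1, hc, hs'.1.2.2⟩
        have h4 : ∀ s' ∈ ZW 0, 0 ≤ (if s.im ≤ 1 then mS s * mS s' * h else 0) := by
          intro s' _
          split_ifs
          · exact mul_nonneg (mul_nonneg (mS_nonneg s) (mS_nonneg s')) hh0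
          · exact le_rfl
        refine le_trans (Finset.sum_le_sum fun s' hs' => ?_)
          (Finset.sum_le_sum_of_subset_of_nonneg h3 fun s' hs' _ => h4 s' hs')
        have h5 := mem_ZW.1 (h3 hs')
        have h6 := mem_Z0'.1 hs
        have h7 := mul_nonneg (mS_nonneg s) (mS_nonneg s')
        split_ifs with g1 g2 g2
        · refine mul_le_mul_of_nonneg_left ?_ h7
          exact max_le (by linarith) hh0
        · rw [max_eq_right (by linarith), mul_zero]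
        · rw [mul_zero]
          exact mul_nonneg h7 hh0
        · rw [mul_zero]
    _ = (∑ s ∈ Z0 1, mS s) * (∑ s' ∈ ZW 0, mS s') * h := by
        have h3 : ∀ s ∈ Z0 T, ∑ s' ∈ ZW 0, (if s.im ≤ 1 then mS s * mS s' * h else 0) =
            if s.im ≤ 1 then ∑ s' ∈ ZW 0, mS s * mS s' * h else 0 := by
          intro s _
          split_ifs
          · rfl
          · simp
        rw [Finset.sum_congr rfl h3, ← Finset.sum_filter]
        have h4 : (Z0 T).filter (fun s => s.im ≤ 1) = Z0 1 := by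
          ext s
          rw [Finset.mem_filter, mem_Z0', mem_Z0']
          constructor
          · rintro ⟨⟨g1, g2, _⟩, g4⟩
            exact ⟨g1, g2, g4⟩
          · rintro ⟨g1, g2, g3⟩
            exact ⟨⟨g1, g2, g3.trans hT⟩, g3⟩
        rw [h4, Finset.sum_mul_sum, Finset.sum_mul]
        refine Finset.sum_congr rfl fun s _ => ?_
        rw [Finset.sum_mul]

/-- the main identity -/
theorem main_id : ∃ C T₀ : ℝ, 0 < C ∧ 10 ≤ T₀ ∧ ∀ T A : ℝ, T₀ ≤ T → 1 ≤ A → A ^ 2 ≤ Real.log T →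
    |1 / A * (∫ a in (0 : ℝ)..A, ((Nstar T a : ℝ) - T * Real.log T / (2 * Real.pi) * g a)) +
      ((Q T : ℝ) - T * Real.log T / (2 * Real.pi)) / 2| ≤ C * (T * Real.log T) / A := by
  obtain ⟨C, T0, hC, hT0, hsec⟩ := second
  obtain ⟨K, hK, hneg⟩ := negl
  have hpi := Real.pi_pos
  have hpi3 := Real.pi_gt_three
  have hev : ∀ᶠ T : ℝ in atTop, 40 ≤ Real.log T ∧ K ≤ T := by
    filter_upwards [Real.tendsto_log_atTop.eventually_ge_atTop 40, eventually_ge_atTop K]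
      with T g1 g2
    exact ⟨g1, g2⟩
  obtain ⟨T1, hT1⟩ := eventually_atTop.1 hev
  refine ⟨C + 5, max T0 T1, by linarith, hT0.trans (le_max_left _ _), fun T A hT hA hAL => ?_⟩
  have hTT : T0 ≤ T := (le_max_left _ _).trans hT
  obtain ⟨g1, g2⟩ := hT1 T ((le_max_right _ _).trans hT)
  have hT10 : 10 ≤ T := hT0.trans hTT
  have hL : 0 < Real.log T := by linarith
  have hA0 : 0 < A := by linarith
  obtain ⟨h, hh⟩ : ∃ h : ℝ, h = 2 * Real.pi * A / Real.log T := ⟨_, rfl⟩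
  have hh0 : 0 < h := by rw [hh]; positivity
  have hh1 : h ≤ 1 := by
    rw [hh, div_le_one hL]
    have h1 : (2 * Real.pi * A) ^ 2 ≤ Real.log T ^ 2 := by
      have h2 := Real.pi_lt_d2
      have h3 : (2 * Real.pi) ^ 2 ≤ 40 := by nlinarith
      have h4 : (2 * Real.pi * A) ^ 2 = (2 * Real.pi) ^ 2 * A ^ 2 := by ring
      rw [h4, sq (Real.log T)]
      exact mul_le_mul (h3.trans g1) hAL (by positivity) hL.le
    exact le_of_sq_le_sq h1 hL.le
  obtain ⟨hi, he⟩ := Nstar_integral hL hA0.le hh hh1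
  have hs := hsec T A hTT hA hAL
  rw [← hh, sq_eq _ hh0.le] at hs
  have hn := hneg T h (by linarith) hh0.le hh1
  have hg := mean_g A hA
  obtain ⟨E, hE⟩ : ∃ E : ℝ, E = ∑ s ∈ Z0 T, ∑ s' ∈ ZW T, mS s * mS s' *
        (if 0 < s.im - s'.im then max (h - (s.im - s'.im)) 0 else 0) := ⟨_, rfl⟩
  rw [← hE] at he hn
  have hgi : IntervalIntegrable (fun a => T * Real.log T / (2 * Real.pi) * g a) volume 0 A :=
    (Pool.Agent.V1161.CM.g_cont.intervalIntegrable 0 A).const_mul _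
  rw [intervalIntegral.integral_sub hi hgi, intervalIntegral.integral_const_mul, he]
  have hgg : ∫ a in (0 : ℝ)..A, g a = ∫ a in (0 : ℝ)..A, Pool.Agent.V1161.CM.g a := rfl
  rw [hgg, Q_eq]
  obtain ⟨G, hG⟩ : ∃ G : ℝ, G = ∫ a in (0 : ℝ)..A, Pool.Agent.V1161.CM.g a := ⟨_, rfl⟩
  obtain ⟨q, hq⟩ : ∃ q : ℝ, q = Pool.Agent.V1161.CM.QS (Z0 T) := ⟨_, rfl⟩
  obtain ⟨P, hP⟩ : ∃ P : ℝ, P = PP (Z0 T) h := ⟨_, rfl⟩
  rw [← hG] at hg ⊢
  rw [← hq] at hs ⊢
  rw [← hP] at hs hn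
  obtain ⟨X, hX⟩ : ∃ X : ℝ, X = T * Real.log T / (2 * Real.pi) := ⟨_, rfl⟩
  obtain ⟨L, hLL⟩ : ∃ L : ℝ, L = Real.log T := ⟨_, rfl⟩
  rw [← hX]
  rw [← hLL] at hL hh g1 hAL hX ⊢
  have hX0 : 0 < X := by rw [hX]; positivity
  have hTL : 0 < T * L := by positivity
  -- the identity
  obtain ⟨M, hM⟩ : ∃ M : ℝ, M = Real.log (1 + A) := ⟨_, rfl⟩
  have hMM : MM A = A ^ 2 + M / Real.pi ^ 2 := by rw [hM]; rfl
  rw [hMM] at hs
  rw [← hM] at hg
  have key : 1 / A * (L / (2 * Real.pi) * E - X * G) + (q - X) / 2 =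
      1 / A * (L / (2 * Real.pi) * (E - P) +
        L / (4 * Real.pi) * (h * q + 2 * P - T * (A ^ 2 + M / Real.pi ^ 2)) -
        X * (G - (A ^ 2 / 2 - A / 2 + M / (2 * Real.pi ^ 2)))) := by
    rw [hX, hh]
    field_simp
    ring
  rw [key, abs_mul, abs_of_pos (show 0 < 1 / A by positivity), one_div, inv_mul_eq_div]
  refine div_le_div_of_nonneg_right ?_ hA0.le
  have b1 : |L / (2 * Real.pi) * (E - P)| ≤ T * L := by
    rw [abs_mul, abs_of_pos (show 0 < L / (2 * Real.pi) by positivity)]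
    have h1 : L / (2 * Real.pi) * |E - P| ≤ L / (2 * Real.pi) * (K * h) :=
      mul_le_mul_of_nonneg_left hn (by positivity)
    have h2 : L / (2 * Real.pi) * (K * h) ≤ L * (T * 1) := by
      refine mul_le_mul ?_ ?_ (by positivity) hL.le
      · exact div_le_self hL.le (by linarith)
      · exact mul_le_mul g2 hh1 hh0.le (by linarith)
    linarith
  have b2 : |L / (4 * Real.pi) * (h * q + 2 * P - T * (A ^ 2 + M / Real.pi ^ 2))| ≤
      C * (T * L) := by
    rw [abs_mul, abs_of_pos (show 0 < L / (4 * Real.pi) by positivity)]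
    have h1 : L / (4 * Real.pi) * |h * q + 2 * P - T * (A ^ 2 + M / Real.pi ^ 2)| ≤
        L / (4 * Real.pi) * (C * T) := mul_le_mul_of_nonneg_left hs (by positivity)
    have h2 : L / (4 * Real.pi) * (C * T) ≤ L * (C * T) := by
      refine mul_le_mul_of_nonneg_right ?_ (by positivity)
      exact div_le_self hL.le (by linarith)
    linarith
  have b3 : |X * (G - (A ^ 2 / 2 - A / 2 + M / (2 * Real.pi ^ 2)))| ≤ 3 * (T * L) := by
    rw [abs_mul, abs_of_pos hX0]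
    have h1 : X * |G - (A ^ 2 / 2 - A / 2 + M / (2 * Real.pi ^ 2))| ≤ X * 3 :=
      mul_le_mul_of_nonneg_left hg hX0.le
    have h2 : X ≤ T * L := by
      rw [hX]
      exact div_le_self hTL.le (by linarith)
    linarith
  refine (abs_sub _ _).trans ?_
  have b4 := abs_add_le (L / (2 * Real.pi) * (E - P))
    (L / (4 * Real.pi) * (h * q + 2 * P - T * (A ^ 2 + M / Real.pi ^ 2)))
  have b5 : (C + 5) * (T * L) = C * (T * L) + 5 * (T * L) := by ring
  rw [b5]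
  linarith

lemma ML_two {T : ℝ} {s : ℂ} (hs : s ∈ Z0 T)
    (hx : zmult s ≠ 1 ∨ ∃ s' ∈ ZZ, s' ≠ s ∧ s'.im = s.im) : 2 ≤ ML (Z0 T) s := by
  have h1 := one_le_zmult hs
  rcases hx with h2 | ⟨s', h3, h4, h5⟩
  · refine le_trans ?_ (ML_ge hs)
    rw [mS_eq]
    have : 2 ≤ zmult s := by omega
    exact_mod_cast this
  · have hs' : s' ∈ Z0 T := by
      rw [mem_Z0'] at hs ⊢
      rw [h5]
      exact ⟨h3, hs.2⟩
    have h6 := ML_ge2 hs hs' h4 h5.symm
    have h7 := one_le_zmult hs'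
    rw [mS_eq, mS_eq] at h6
    have h8 : (1 : ℝ) ≤ zmult s := by exact_mod_cast h1
    have h9 : (1 : ℝ) ≤ zmult s' := by exact_mod_cast h7
    linarith

lemma ML_one {T : ℝ} {s : ℂ} (hs : s ∈ Z0 T)
    (hx : ¬ (zmult s ≠ 1 ∨ ∃ s' ∈ ZZ, s' ≠ s ∧ s'.im = s.im)) : ML (Z0 T) s = 1 := by
  push Not at hx
  unfold ML
  rw [Finset.sum_eq_single_of_mem s hs]
  · rw [if_pos rfl, mS_eq, hx.1, Nat.cast_one]
  · intro s' hs' hne
    rw [if_neg]
    intro hc
    exact hx.2 s' (mem_Z0'.1 hs').1 hne hc.symm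

lemma Nx_eq (T : ℝ) : (Nx T : ℝ) = ∑ s ∈ Z0 T, if ML (Z0 T) s = 1 then 0 else mS s := by
  classical
  unfold Nx
  rw [finsum_mem_eq_finite_toFinset_sum _ (sets_finite T 0).2.2]
  push_cast
  have h1 : ∀ s : ℂ, (if ML (Z0 T) s = 1 then 0 else mS s) =
      if ¬ (ML (Z0 T) s = 1) then mS s else 0 := by
    intro s
    split_ifs <;> rfl
  simp_rw [h1]
  rw [← Finset.sum_filter]
  refine Finset.sum_congr ?_ fun s _ => rfl
  ext s
  rw [Set.Finite.mem_toFinset, Finset.mem_filter]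
  constructor
  · rintro ⟨g1, g2, g3, g4⟩
    have hs : s ∈ Z0 T := mem_Z0'.2 ⟨g1, g2, g3⟩
    refine ⟨hs, ?_⟩
    have := ML_two hs g4
    intro hc
    linarith
  · rintro ⟨hs, g⟩
    have h2 := mem_Z0'.1 hs
    refine ⟨h2.1, h2.2.1, h2.2.2, ?_⟩
    by_contra hc
    exact g (ML_one hs hc)

/-- comparison of the pairs of equal ordinates with the exceptional zeros -/
lemma compare (T : ℝ) : (Nx T : ℝ) ≤ (Q T : ℝ) - ∑ s ∈ Z0 T, mS s ∧
    ∀ δ : ℝ, 0 < δ → (Q T : ℝ) - ∑ s ∈ Z0 T, mS s ≤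
      1 / δ * (Nx T : ℝ) + δ * ∑ s ∈ Z0 T, mS s * ML (Z0 T) s ^ 2 := by
  rw [Q_eq, QS_ML, Nx_eq, ← Finset.sum_sub_distrib]
  constructor
  · refine Finset.sum_le_sum fun s hs => ?_
    by_cases hx : zmult s ≠ 1 ∨ ∃ s' ∈ ZZ, s' ≠ s ∧ s'.im = s.im
    · have h1 := ML_two hs hx
      have h2 := mS_nonneg s
      rw [if_neg (by intro hc; linarith)]
      nlinarith
    · rw [ML_one hs hx, if_pos rfl]
      linarith
  · intro δ hδ
    rw [Finset.mul_sum, Finset.mul_sum, ← Finset.sum_add_distrib]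
    refine Finset.sum_le_sum fun s hs => ?_
    have h2 := mS_nonneg s
    by_cases hx : zmult s ≠ 1 ∨ ∃ s' ∈ ZZ, s' ≠ s ∧ s'.im = s.im
    · have h1 := ML_two hs hx
      rw [if_neg (by intro hc; linarith)]
      have h3 : ML (Z0 T) s ≤ 1 / δ + δ * ML (Z0 T) s ^ 2 := by
        rcases le_or_gt (ML (Z0 T) s) (1 / δ) with h4 | h4
        · have : 0 ≤ δ * ML (Z0 T) s ^ 2 := by positivity
          linarith
        · rw [div_lt_iff₀ hδ] at h4
          have : 0 ≤ 1 / δ := by positivity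
          nlinarith
      have h4 := mul_le_mul_of_nonneg_left h3 h2
      nlinarith
    · rw [ML_one hs hx, if_pos rfl]
      have : 0 ≤ δ * (mS s * 1 ^ 2) := by positivity
      linarith

/-- the mean over `0 ≤ a ≤ A` of the difference between the pair correlation and its predicted
value -/
noncomputable def D (T A : ℝ) : ℝ :=
  1 / A * ∫ a in (0 : ℝ)..A, ((Nstar T a : ℝ) / (T * Real.log T) - g a / (2 * Real.pi))

lemma D_eq {T A : ℝ} (hT : 10 ≤ T) : D T A = (1 / A * ∫ a in (0 : ℝ)..A,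
    ((Nstar T a : ℝ) - T * Real.log T / (2 * Real.pi) * g a)) / (T * Real.log T) := by
  unfold D
  have hL : 0 < Real.log T := Real.log_pos (by linarith)
  have hTL : T * Real.log T ≠ 0 := by positivity
  rw [mul_div_assoc, ← intervalIntegral.integral_div]
  congr 1
  refine intervalIntegral.integral_congr fun a _ => ?_
  show (Nstar T a : ℝ) / (T * Real.log T) - g a / (2 * Real.pi) =
    ((Nstar T a : ℝ) - T * Real.log T / (2 * Real.pi) * g a) / (T * Real.log T)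
  field_simp

lemma D_bound : ∃ C T₀ : ℝ, 0 < C ∧ 10 ≤ T₀ ∧ ∀ T A : ℝ, T₀ ≤ T → 1 ≤ A → A ^ 2 ≤ Real.log T →
    |D T A + ((Q T : ℝ) / (T * Real.log T) - 1 / (2 * Real.pi)) / 2| ≤ C / A := by
  obtain ⟨C, T0, hC, hT0, h⟩ := main_id
  refine ⟨C, T0, hC, hT0, fun T A hT hA hAL => ?_⟩
  have hT10 : 10 ≤ T := hT0.trans hT
  have hL : 0 < Real.log T := Real.log_pos (by linarith)
  have hTL : 0 < T * Real.log T := by positivity
  have h1 := h T A hT hA hAL
  rw [D_eq hT10]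
  obtain ⟨J, hJ⟩ : ∃ J : ℝ, J = ∫ a in (0 : ℝ)..A,
      ((Nstar T a : ℝ) - T * Real.log T / (2 * Real.pi) * g a) := ⟨_, rfl⟩
  rw [← hJ] at h1 ⊢
  have e : (1 / A * J) / (T * Real.log T) +
      ((Q T : ℝ) / (T * Real.log T) - 1 / (2 * Real.pi)) / 2 =
      (1 / A * J + ((Q T : ℝ) - T * Real.log T / (2 * Real.pi)) / 2) / (T * Real.log T) := by
    field_simp
  rw [e, abs_div, abs_of_pos hTL, div_le_iff₀ hTL]
  refine h1.trans (le_of_eq ?_)
  ring

/-- the numbers of zeros -/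
lemma counts (ε : ℝ) (hε : 0 < ε) : ∃ T₀ : ℝ, 10 ≤ T₀ ∧ ∀ T : ℝ, T₀ ≤ T →
    |(∑ s ∈ Z0 T, mS s) / (T * Real.log T) - 1 / (2 * Real.pi)| ≤ ε := by
  obtain ⟨T1, hT1, h1⟩ := count_upper ε hε
  obtain ⟨T2, hT2, h2⟩ := count_all ε hε
  have hpi := Real.pi_pos
  have hpi3 := Real.pi_gt_three
  refine ⟨max T1 T2, hT1.trans (le_max_left _ _), fun T hT => ?_⟩
  have g1 := h1 T ((le_max_left _ _).trans hT)
  have g2 : (1 - ε) * (T * Real.log T / (2 * Real.pi)) ≤ ∑ s ∈ Z0 T, mS s :=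
    h2 T ((le_max_right _ _).trans hT)
  have hT10 : 10 ≤ T := hT1.trans ((le_max_left _ _).trans hT)
  have hL : 0 < Real.log T := Real.log_pos (by linarith)
  have hTL : 0 < T * Real.log T := by positivity
  obtain ⟨N, hN⟩ : ∃ N : ℝ, N = ∑ s ∈ Z0 T, mS s := ⟨_, rfl⟩
  rw [← hN] at g1 g2 ⊢
  have e : N / (T * Real.log T) - 1 / (2 * Real.pi) =
      (N - T * Real.log T / (2 * Real.pi)) / (T * Real.log T) := by field_simp
  rw [e, abs_div, abs_of_pos hTL, div_le_iff₀ hTL]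
  have h3 : T * Real.log T / (2 * Real.pi) ≤ T * Real.log T := div_le_self hTL.le (by linarith)
  have h4 : ε * (T * Real.log T / (2 * Real.pi)) ≤ ε * (T * Real.log T) :=
    mul_le_mul_of_nonneg_left h3 hε.le
  rw [abs_le]
  constructor
  · linarith
  · linarith

/-- **Cesaro means of the pair correlation.**  No hypothesis is assumed.
(1) For all large `T` and `1 ≤ A ≤ √(log T)` the mean over `0 ≤ a ≤ A` of `N*(T, a)` minus its
predicted value `(T log T / 2π) g(a)` is `-(Q(T) - (T log T)/2π)/2` up to `C (T log T) / A`.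
(2) The pair correlation conjecture holds in Cesaro mean if and only if almost all zeros are simple
and alone at their height.
(3) The pair correlation is never larger, in Cesaro mean, than its predicted value. -/
theorem result :
    (∃ C T₀ : ℝ, 0 < C ∧ ∀ T A : ℝ, T₀ ≤ T → 1 ≤ A → A ^ 2 ≤ Real.log T →
      |1 / A * (∫ a in (0 : ℝ)..A, ((Nstar T a : ℝ) - T * Real.log T / (2 * Real.pi) * g a)) +
        ((Q T : ℝ) - T * Real.log T / (2 * Real.pi)) / 2| ≤ C * (T * Real.log T) / A) ∧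
    ((∀ ε : ℝ, 0 < ε → ∃ A₀ : ℝ, ∀ A : ℝ, A₀ ≤ A → ∃ T₀ : ℝ, ∀ T : ℝ, T₀ ≤ T → |D T A| ≤ ε) ↔
      Tendsto (fun T : ℝ => (Nx T : ℝ) / (T * Real.log T)) atTop (𝓝 0)) ∧
    (∀ ε : ℝ, 0 < ε → ∃ A₀ : ℝ, ∀ A : ℝ, A₀ ≤ A → ∃ T₀ : ℝ, ∀ T : ℝ, T₀ ≤ T → D T A ≤ ε) := by
  obtain ⟨C, T0, hC, hT0, hmain⟩ := main_id
  obtain ⟨C1, T1, hC1, hT1, hD⟩ := D_bound
  obtain ⟨K, T2, hK, hT2, h3⟩ := third
  have hpi := Real.pi_pos
  -- thresholds for `A`
  have hA : ∀ A : ℝ, ∃ T₀ : ℝ, 10 ≤ T₀ ∧ ∀ T : ℝ, T₀ ≤ T → T1 ≤ T ∧ A ^ 2 ≤ Real.log T := by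
    intro A
    obtain ⟨T3, hT3⟩ := eventually_atTop.1 (Real.tendsto_log_atTop.eventually_ge_atTop (A ^ 2))
    refine ⟨max T1 T3, hT1.trans (le_max_left _ _), fun T hT => ?_⟩
    exact ⟨(le_max_left _ _).trans hT, hT3 T ((le_max_right _ _).trans hT)⟩
  have hcmp : ∀ T : ℝ, 10 ≤ T → (Nx T : ℝ) / (T * Real.log T) ≤
      (Q T : ℝ) / (T * Real.log T) - (∑ s ∈ Z0 T, mS s) / (T * Real.log T) := by
    intro T hT
    have hL : 0 < Real.log T := Real.log_pos (by linarith)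
    rw [← sub_div]
    exact div_le_div_of_nonneg_right (compare T).1 (by positivity)
  refine ⟨⟨C, T0, hC, fun T A h1 h2 h4 => hmain T A h1 h2 h4⟩, ⟨fun h => ?_, fun h => ?_⟩, ?_⟩
  · -- from the Cesaro form to the zeros
    rw [Metric.tendsto_atTop]
    intro ε hε
    obtain ⟨δ, hδ⟩ : ∃ δ : ℝ, δ = ε / 6 := ⟨_, rfl⟩
    have hδ0 : 0 < δ := by rw [hδ]; positivity
    obtain ⟨A0, hA0⟩ := h δ hδ0
    obtain ⟨A, hAA⟩ : ∃ A : ℝ, A = max (max A0 1) (C1 / δ) := ⟨_, rfl⟩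
    have hA1 : 1 ≤ A := by rw [hAA]; exact (le_max_right _ _).trans (le_max_left _ _)
    have hA2 : A0 ≤ A := by rw [hAA]; exact (le_max_left _ _).trans (le_max_left _ _)
    have hA3 : C1 / A ≤ δ := by
      have : C1 / δ ≤ A := by rw [hAA]; exact le_max_right _ _
      rw [div_le_iff₀ hδ0] at this
      rw [div_le_iff₀ (by linarith)]
      linarith
    obtain ⟨T4, hT4⟩ := hA0 A hA2
    obtain ⟨T5, hT5, hT5'⟩ := hA A
    obtain ⟨T6, hT6, hT6'⟩ := counts δ hδ0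
    refine ⟨max T4 (max T5 T6), fun T hT => ?_⟩
    have g4 := hT4 T ((le_max_left _ _).trans hT)
    obtain ⟨g5, g5'⟩ := hT5' T (((le_max_left _ _).trans (le_max_right _ _)).trans hT)
    have g6 := hT6' T (((le_max_right _ _).trans (le_max_right _ _)).trans hT)
    have hT10 : 10 ≤ T := hT5.trans (((le_max_left _ _).trans (le_max_right _ _)).trans hT)
    have g7 := hD T A g5 hA1 g5'
    have g8 := hcmp T hT10
    have hL : 0 < Real.log T := Real.log_pos (by linarith)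
    have h0 : 0 ≤ (Nx T : ℝ) / (T * Real.log T) := by positivity
    rw [dist_zero_right, Real.norm_eq_abs, abs_of_nonneg h0]
    have k1 := abs_le.1 g4
    have k2 := abs_le.1 g6
    have k3 := abs_le.1 (g7.trans hA3)
    rw [hδ] at k1 k2 k3
    linarith
  · -- from the zeros to the Cesaro form
    intro ε hε
    obtain ⟨δ, hδ⟩ : ∃ δ : ℝ, δ = min (ε / 4) (ε / (4 * K)) := ⟨_, rfl⟩
    have hδ0 : 0 < δ := by rw [hδ]; positivity
    have hδ1 : δ ≤ ε / 4 := by rw [hδ]; exact min_le_left _ _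
    have hδ2 : δ * K ≤ ε / 4 := by
      have : δ ≤ ε / (4 * K) := by rw [hδ]; exact min_le_right _ _
      rw [le_div_iff₀ (by positivity)] at this
      linarith
    rw [Metric.tendsto_atTop] at h
    obtain ⟨T3, hT3⟩ := h (δ * (ε / 4)) (by positivity)
    refine ⟨max 1 (C1 / (ε / 4)), fun A hAA => ?_⟩
    have hA1 : 1 ≤ A := (le_max_left _ _).trans hAA
    have hA3 : C1 / A ≤ ε / 4 := by
      have : C1 / (ε / 4) ≤ A := (le_max_right _ _).trans hAA
      rw [div_le_iff₀ (by positivity)] at this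
      rw [div_le_iff₀ (by linarith)]
      linarith
    obtain ⟨T5, hT5, hT5'⟩ := hA A
    obtain ⟨T6, hT6, hT6'⟩ := counts (ε / 4) (by positivity)
    refine ⟨max (max T2 T3) (max T5 T6), fun T hT => ?_⟩
    have g2 : T2 ≤ T := ((le_max_left _ _).trans (le_max_left _ _)).trans hT
    have g3 := hT3 T (((le_max_right _ _).trans (le_max_left _ _)).trans hT)
    obtain ⟨g5, g5'⟩ := hT5' T (((le_max_left _ _).trans (le_max_right _ _)).trans hT)
    have g6 := hT6' T (((le_max_right _ _).trans (le_max_right _ _)).trans hT)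
    have hT10 : 10 ≤ T := hT5.trans (((le_max_left _ _).trans (le_max_right _ _)).trans hT)
    have g7 := hD T A g5 hA1 g5'
    have g8 := hcmp T hT10
    have hL : 0 < Real.log T := Real.log_pos (by linarith)
    have hTL : 0 < T * Real.log T := by positivity
    have h0 : 0 ≤ (Nx T : ℝ) / (T * Real.log T) := by positivity
    rw [dist_zero_right, Real.norm_eq_abs, abs_of_nonneg h0] at g3
    have g9 := (compare T).2 δ hδ0
    have g10 : (Q T : ℝ) / (T * Real.log T) - (∑ s ∈ Z0 T, mS s) / (T * Real.log T) ≤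
        ε / 4 + ε / 4 := by
      rw [← sub_div, div_le_iff₀ hTL]
      have k1 : δ * ∑ s ∈ Z0 T, mS s * ML (Z0 T) s ^ 2 ≤ δ * (K * (T * Real.log T)) :=
        mul_le_mul_of_nonneg_left (h3 T g2) hδ0.le
      have k2 : 1 / δ * (Nx T : ℝ) ≤ ε / 4 * (T * Real.log T) := by
        rw [div_lt_iff₀ hTL] at g3
        rw [one_div, inv_mul_eq_div, div_le_iff₀ hδ0]
        nlinarith
      have k3 : δ * (K * (T * Real.log T)) ≤ ε / 4 * (T * Real.log T) := by
        rw [← mul_assoc]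
        exact mul_le_mul_of_nonneg_right hδ2 hTL.le
      linarith
    have k1 := abs_le.1 g6
    have k3 := abs_le.1 (g7.trans hA3)
    rw [abs_le]
    constructor
    · linarith
    · linarith
  · -- the upper bound
    intro ε hε
    refine ⟨max 1 (C1 / (ε / 2)), fun A hAA => ?_⟩
    have hA1 : 1 ≤ A := (le_max_left _ _).trans hAA
    have hA3 : C1 / A ≤ ε / 2 := by
      have : C1 / (ε / 2) ≤ A := (le_max_right _ _).trans hAA
      rw [div_le_iff₀ (by positivity)] at this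
      rw [div_le_iff₀ (by linarith)]
      linarith
    obtain ⟨T5, hT5, hT5'⟩ := hA A
    obtain ⟨T6, hT6, hT6'⟩ := counts (ε / 2) (by positivity)
    refine ⟨max T5 T6, fun T hT => ?_⟩
    obtain ⟨g5, g5'⟩ := hT5' T ((le_max_left _ _).trans hT)
    have g6 := hT6' T ((le_max_right _ _).trans hT)
    have hT10 : 10 ≤ T := hT5.trans ((le_max_left _ _).trans hT)
    have g7 := hD T A g5 hA1 g5'
    have g8 := hcmp T hT10
    have hL : 0 < Real.log T := Real.log_pos (by linarith)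
    have h0 : 0 ≤ (Nx T : ℝ) / (T * Real.log T) := by positivity
    have k1 := abs_le.1 g6
    have k3 := abs_le.1 (g7.trans hA3)
    linarith

end Pool.Agent.Results.MP_f58427_nt.CesaroMean
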