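import Pool.Agent.V1161.ZW.Meas
import Pool.Agent.V11270.HP.RealFK
import Pool.Agent.H295R2.SI.Fin
import Pool.Agent.H370R2.Expl1

/-!
# Patterns in the common simple zeros of several L-functions, at the scale of the mean spacing

Unconditionally.  Let `p = 3/2 - cot(1/√2)/√2 = 0.6725…`.  Consider places `(L_i, b_i)`, that is primitive Dirichlet
L-functions `L_i` (for instance the Riemann zeta function at several shifts) with arbitrary shifts
`0 ≤ b_i ≤ T^(1+δ)`, and numbers `θ_i ∈ [0, 1)` with `∑ (p - θ_i) / (1 - θ_i) > m`, where `m + 1` is the number of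
the places.  (One place: `θ < p`.  Two places: for instance `θ_i < 2p - 1 = 0.345`.  Three places: for instance
`θ_i < 3p - 2 = 0.0175`.)  Call `t ∈ [T, T + H]` common if for all `i` the window of `ℓ` mean spacings at
`t + b_i` contains at least `θ_i ℓ` simple zeros of `L_i` on the critical line.

1. (IP Szemerédi theorem for common windows) For every `l` there are `r` and `η > 0` such that for arbitrary
vectors `g_1, …, g_r ∈ ℝ^l` with `∑_i |g_i| ≤ H` in every coordinate there is a nonempty set `I` of indices such that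
for the `t` in a set of measure `η H` the point `t` and all the points `t + ∑_{i ∈ I} g_i(j)` are common.
The length `ℓ` of the windows is anything between a constant and `κ log T`; `r` and `η` do not depend on it.

2. (three L-functions) For any three primitive Dirichlet L-functions `L_0, L_1, L_2` and shifts `0, b_1, b_2` there
is a nonempty `I` such that for a positive proportion of the simple critical zeros `x` of `L_0` in `(T, T + 2H]`
all the points `x + b_a` and `x + b_a + ∑_{i ∈ I} g_i(j)` are at distance at most `K / log T` from simple critical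
zeros of `L_a`, for `a = 0, 1, 2`.

Proof.  The truncated counts of the simple critical zeros in the windows have average at least `(p - ε) ℓ`, at every
shift and uniformly in the length (`Pool.Agent.V1161.ZW.coreU`); so the common `t` have measure at least
`(∑ (p - θ_i) / (1 - θ_i) - m - ε) H`, and the density Hales-Jewett theorem of the starting library
(`Pool.Agent.V11270.HP.real_line`: the IP Szemerédi theorem on the real line) applies to this set.
-/

open Filter Topology Complex MeasureTheory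

namespace Pool.Agent.Results.MP_f58427_nt.CommonWindowPatterns

/-- the Montgomery-Taylor proportion `2 - c_MT⁻¹ = 3/2 - cot(1/√2)/√2 = 0.6725…` -/
noncomputable def p : ℝ := 3 / 2 - Real.cot (1 / Real.sqrt 2) / Real.sqrt 2

/-- `1/2 + i x` is a simple zero of `F` -/
def Simple (F : ℂ → ℂ) (x : ℝ) : Prop :=
  F (1 / 2 + x * I) = 0 ∧ analyticOrderNatAt F (1 / 2 + x * I) = 1

/-- the number of the `x ∈ (t, t + 2πℓ / log T]` such that `1/2 + i x` is a simple zero of `F`: the number of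
simple zeros on the critical line in a window of `ℓ` mean spacings `2π / log T` -/
noncomputable def n (F : ℂ → ℂ) (T ℓ t : ℝ) : ℕ :=
  {x : ℝ | t < x ∧ x ≤ t + ℓ * (2 * Real.pi / Real.log T) ∧ Simple F x}.ncard

/-- the common `t`: those in `[T, T + H]` for which, for every `i`, the window at `t + b i` contains at least
`θ i * ℓ` simple critical zeros of `F i` -/
def common {m : ℕ} (F : Fin m → ℂ → ℂ) (θ b : Fin m → ℝ) (T H ℓ : ℝ) : Set ℝ :=
  {t : ℝ | t ∈ Set.Icc T (T + H) ∧ ∀ i, θ i * ℓ ≤ (n (F i) T ℓ (t + b i) : ℝ)}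

/-- modulus `1`: the Riemann zeta function -/
theorem zeta_case (χ : DirichletCharacter ℂ 1) :
    χ.IsPrimitive ∧ DirichletCharacter.LFunction χ = riemannZeta := by
  refine ⟨?_, DirichletCharacter.LFunction_modOne_eq⟩
  rw [DirichletCharacter.level_one' χ rfl]
  exact DirichletCharacter.isPrimitive_one_level_one

/-- the sets of zeros which are counted are finite -/
theorem n_finite {q : ℕ} [NeZero q] (χ : DirichletCharacter ℂ q) (hχ : χ.IsPrimitive) (t v : ℝ)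
    (ht : 0 < t) : {x : ℝ | t < x ∧ x ≤ v ∧ Simple (DirichletCharacter.LFunction χ) x}.Finite := by
  have hinj : Function.Injective fun x : ℝ => (1 / 2 + x * I : ℂ) := by
    intro a b hab
    have := congrArg Complex.im hab
    simpa using this
  refine Set.Finite.of_finite_image ((H370.zset_finite' (H370.good_dirichlet χ hχ) t v ht).subset ?_)
    hinj.injOn
  rintro s ⟨x, ⟨h1, h2, h3, -⟩, rfl⟩
  simp only [H370.zset, Set.mem_ofPred_eq]
  refine ⟨?_, ?_, ?_, ?_, h3⟩ <;> simp <;> first | assumption | norm_num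

lemma p_eq : p = 2 - H370.cMTinv := by
  unfold p H370.cMTinv
  ring

lemma p_num : 0.672497 ≤ p := by
  rw [p_eq]
  have := H370.Expl.cMTinv_num
  norm_num at this ⊢
  linarith

lemma common_eq {m : ℕ} (F : Fin m → ℂ → ℂ) (θ b : Fin m → ℝ) (T H ℓ : ℝ) :
    common F θ b T H ℓ = Pool.Agent.V1161.ZW.richSet F θ T ℓ H b := rfl

/-- the main theorem -/
theorem main (m l : ℕ) (θ : Fin (m + 1) → ℝ) (hθ : ∀ i, 0 ≤ θ i ∧ θ i < 1)
    (hm : (m : ℝ) < ∑ i, (p - θ i) / (1 - θ i)) : ∃ (r : ℕ) (η ℓ₀ κ δ : ℝ),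
      0 < η ∧ 0 < ℓ₀ ∧ 0 < κ ∧ 0 < δ ∧ δ < 1 ∧
      ∀ F : Fin (m + 1) → ℂ → ℂ, (∀ i, H370.GoodL (F i)) → ∃ T₀ : ℝ, 10 ≤ T₀ ∧ ∀ T : ℝ, T₀ ≤ T →
      ∀ ℓ : ℝ, ℓ₀ ≤ ℓ → ℓ ≤ κ * Real.log T → ∀ H : ℝ, T ^ (1 - δ) ≤ H → H ≤ T →
      ∀ b : Fin (m + 1) → ℝ, (∀ i, 0 ≤ b i ∧ b i ≤ T ^ (1 + δ)) →
      ∀ g : Fin r → Fin l → ℝ, (∀ j, ∑ i, |g i j| ≤ H) →
      ∃ J : Finset (Fin r), J.Nonempty ∧ ENNReal.ofReal (η * H) ≤
        volume {t : ℝ | t ∈ common F θ b T H ℓ ∧ ∀ j, t + ∑ i ∈ J, g i j ∈ common F θ b T H ℓ} := by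
  set c : ℝ := (∑ i, (p - θ i) / (1 - θ i)) - m with hc
  have hc0 : 0 < c := by rw [hc]; linarith
  obtain ⟨ℓ₀, κ, δ, h1, h2, h3, h4, h5⟩ := Pool.Agent.V1161.ZW.meas m θ hθ (ε := c / 2) (by positivity)
  obtain ⟨r, η, hη, h6⟩ := Pool.Agent.V11270.HP.real_line l (c / 2) (by positivity)
  refine ⟨r, η, ℓ₀, κ, δ, hη, h1, h2, h3, h4, fun F hF => ?_⟩
  obtain ⟨T₀, hT₀, h7⟩ := h5 F hF
  refine ⟨T₀, hT₀, fun T hT ℓ hℓ1 hℓ2 H hH1 hH2 b hb g hg => ?_⟩
  obtain ⟨hms, hvol⟩ := h7 T hT ℓ hℓ1 hℓ2 H hH1 hH2 b hb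
  have hH0 : 0 < H := (Real.rpow_pos_of_pos (by linarith) _).trans_le hH1
  rw [← p_eq] at hvol
  have h8 : (∑ i, (p - θ i) / (1 - θ i)) - m - c / 2 = c / 2 := by rw [← hc]; ring
  rw [h8] at hvol
  obtain ⟨J, hJ, h9⟩ := h6 H hH0 T (Pool.Agent.V1161.ZW.richSet F θ T ℓ H b) hms (fun t ht => ht.1)
    hvol g hg
  exact ⟨J, hJ, h9⟩

theorem result :
    -- common windows
    (∀ (m l : ℕ) (θ : Fin (m + 1) → ℝ), (∀ i, 0 ≤ θ i ∧ θ i < 1) →
      (m : ℝ) < ∑ i, (p - θ i) / (1 - θ i) → ∃ (r : ℕ) (η ℓ₀ κ δ : ℝ),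
      0 < η ∧ 0 < ℓ₀ ∧ 0 < κ ∧ 0 < δ ∧ δ < 1 ∧
      ∀ (q : Fin (m + 1) → ℕ) [∀ i, NeZero (q i)] (χ : ∀ i, DirichletCharacter ℂ (q i)),
        (∀ i, (χ i).IsPrimitive) → ∃ T₀ : ℝ, 10 ≤ T₀ ∧ ∀ T : ℝ, T₀ ≤ T →
      ∀ ℓ : ℝ, ℓ₀ ≤ ℓ → ℓ ≤ κ * Real.log T → ∀ H : ℝ, T ^ (1 - δ) ≤ H → H ≤ T →
      ∀ b : Fin (m + 1) → ℝ, (∀ i, 0 ≤ b i ∧ b i ≤ T ^ (1 + δ)) →
      ∀ g : Fin r → Fin l → ℝ, (∀ j, ∑ i, |g i j| ≤ H) →
      ∃ J : Finset (Fin r), J.Nonempty ∧ ENNReal.ofReal (η * H) ≤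
        volume {t : ℝ | t ∈ common (fun i => DirichletCharacter.LFunction (χ i)) θ b T H ℓ ∧
          ∀ j, t + ∑ i ∈ J, g i j ∈
            common (fun i => DirichletCharacter.LFunction (χ i)) θ b T H ℓ}) ∧
    0.672497 ≤ p ∧
    -- zeros of three L-functions
    (∀ l : ℕ, ∃ (r : ℕ) (η K δ : ℝ), 0 < η ∧ 0 < K ∧ 0 < δ ∧ δ < 1 ∧
      ∀ (q : Fin 3 → ℕ) [∀ i, NeZero (q i)] (χ : ∀ i, DirichletCharacter ℂ (q i)),
        (∀ i, (χ i).IsPrimitive) → ∃ T₀ : ℝ, 10 ≤ T₀ ∧ ∀ T : ℝ, T₀ ≤ T →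
      ∀ H : ℝ, T ^ (1 - δ) ≤ H → H ≤ T → ∀ b : Fin 3 → ℝ, b 0 = 0 →
        (∀ i, 0 ≤ b i ∧ b i ≤ T ^ (1 + δ)) →
      ∀ g : Fin r → Fin l → ℝ, (∀ j, ∑ i, |g i j| ≤ H) →
      ∃ J : Finset (Fin r), J.Nonempty ∧ η * (H * Real.log T) ≤
        ({x : ℝ | T < x ∧ x ≤ T + 2 * H ∧ Simple (DirichletCharacter.LFunction (χ 0)) x ∧
          ∀ a : Fin 3, (∃ y : ℝ, Simple (DirichletCharacter.LFunction (χ a)) y ∧
              |y - (x + b a)| ≤ K / Real.log T) ∧
            ∀ j, ∃ y : ℝ, Simple (DirichletCharacter.LFunction (χ a)) y ∧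
              |y - (x + b a + ∑ i ∈ J, g i j)| ≤ K / Real.log T}.ncard : ℝ)) := by
  have hpn := p_num
  refine ⟨fun m l θ hθ hm => ?_, hpn, fun l => ?_⟩
  · obtain ⟨r, η, ℓ₀, κ, δ, h1, h2, h3, h4, h5, h6⟩ := main m l θ hθ hm
    refine ⟨r, η, ℓ₀, κ, δ, h1, h2, h3, h4, h5, fun q _ χ hχ => ?_⟩
    exact h6 _ fun i => H370.good_dirichlet (χ i) (hχ i)
  · obtain ⟨r, η, ℓ₀, κ, δ, h1, h2, h3, h4, h5, h6⟩ := main 2 l (fun _ => 1 / 100)
      (fun _ => ⟨by norm_num, by norm_num⟩) (by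
        simp only [Finset.sum_const, Finset.card_univ, Fintype.card_fin, nsmul_eq_mul]
        norm_num at hpn ⊢
        linarith)
    have hpi := Real.pi_pos
    set K : ℝ := 2 * Real.pi * ℓ₀ with hK
    have hK0 : 0 < K := by positivity
    refine ⟨r, η / K, K, δ, by positivity, hK0, h4, h5, fun q _ χ hχ => ?_⟩
    obtain ⟨T₀, hT₀, h7⟩ := h6 (fun i => DirichletCharacter.LFunction (χ i))
      fun i => H370.good_dirichlet (χ i) (hχ i)
    have ev1 : ∀ᶠ T : ℝ in atTop, ℓ₀ ≤ κ * Real.log T :=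
      (Real.tendsto_log_atTop.const_mul_atTop h3).eventually_ge_atTop _
    have ev2 : ∀ᶠ T : ℝ in atTop, K ≤ T ^ (1 - δ) :=
      (tendsto_rpow_atTop (by linarith)).eventually_ge_atTop _
    have ev3 : ∀ᶠ T : ℝ in atTop, 1 ≤ Real.log T := Real.tendsto_log_atTop.eventually_ge_atTop _
    obtain ⟨T₁, hT₁⟩ := (ev1.and (ev2.and ev3)).exists_forall_of_atTop
    refine ⟨max T₀ T₁, hT₀.trans (le_max_left _ _), fun T hT H hH1 hH2 b hb0 hb g hg => ?_⟩
    obtain ⟨hT1, hT2, hT3⟩ := hT₁ T ((le_max_right _ _).trans hT)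
    have hTT0 : T₀ ≤ T := (le_max_left _ _).trans hT
    have hT10 : 10 ≤ T := hT₀.trans hTT0
    have hlog : 0 < Real.log T := by linarith
    obtain ⟨J, hJ, h8⟩ := h7 T hTT0 ℓ₀ le_rfl hT1 H hH1 hH2 b hb g hg
    refine ⟨J, hJ, ?_⟩
    set w : ℝ := ℓ₀ * (2 * Real.pi / Real.log T) with hw
    have hwK : w = K / Real.log T := by rw [hw, hK]; ring
    have hw0 : 0 < w := by positivity
    have hwH : w ≤ H := by
      have : K / Real.log T ≤ K := div_le_self hK0.le hT3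
      rw [hwK]; linarith
    set P := {x : ℝ | T < x ∧ x ≤ T + 2 * H ∧ Simple (DirichletCharacter.LFunction (χ 0)) x ∧
          ∀ a : Fin 3, (∃ y : ℝ, Simple (DirichletCharacter.LFunction (χ a)) y ∧
              |y - (x + b a)| ≤ K / Real.log T) ∧
            ∀ j, ∃ y : ℝ, Simple (DirichletCharacter.LFunction (χ a)) y ∧
              |y - (x + b a + ∑ i ∈ J, g i j)| ≤ K / Real.log T} with hP
    have hPfin : P.Finite := by
      refine (n_finite (χ 0) (hχ 0) T (T + 2 * H) (by linarith)).subset ?_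
      rintro x ⟨a1, a2, a3, -⟩
      exact ⟨a1, a2, a3⟩
    -- a zero in a rich window
    have hzero : ∀ (i : Fin 3) (t : ℝ), (1 / 100 : ℝ) * ℓ₀ ≤
        (n (DirichletCharacter.LFunction (χ i)) T ℓ₀ t : ℝ) → ∃ y : ℝ, t < y ∧ y ≤ t + w ∧
        Simple (DirichletCharacter.LFunction (χ i)) y := by
      intro i t ht
      have h9 : (0 : ℝ) < n (DirichletCharacter.LFunction (χ i)) T ℓ₀ t :=
        lt_of_lt_of_le (by positivity) ht
      have h10 : 0 < n (DirichletCharacter.LFunction (χ i)) T ℓ₀ t := by exact_mod_cast h9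
      unfold n at h10
      obtain ⟨y, hy1, hy2, hy3⟩ := Set.nonempty_of_ncard_ne_zero h10.ne'
      exact ⟨y, hy1, hy2, hy3⟩
    have hcov : {t : ℝ | t ∈ common (fun i => DirichletCharacter.LFunction (χ i)) (fun _ => 1 / 100)
        b T H ℓ₀ ∧ ∀ j, t + ∑ i ∈ J, g i j ∈
          common (fun i => DirichletCharacter.LFunction (χ i)) (fun _ => 1 / 100) b T H ℓ₀} ⊆
        ⋃ x ∈ hPfin.toFinset, Set.Ico (x - w) x := by
      rintro t ⟨⟨ht1, ht2⟩, ht3⟩
      obtain ⟨x, hx1, hx2, hx3⟩ := hzero 0 (t + b 0) (ht2 0)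
      rw [hb0, add_zero] at hx1 hx2
      refine Set.mem_biUnion (x := x) ?_ ⟨by linarith, hx1⟩
      rw [Finset.mem_coe, Set.Finite.mem_toFinset]
      refine ⟨by linarith [ht1.1], by linarith [ht1.2], hx3, fun a => ⟨?_, fun j => ?_⟩⟩
      · obtain ⟨y, hy1, hy2, hy3⟩ := hzero a (t + b a) (ht2 a)
        refine ⟨y, hy3, ?_⟩
        rw [← hwK, abs_le]
        constructor <;> linarith
      · obtain ⟨y, hy1, hy2, hy3⟩ := hzero a (t + ∑ i ∈ J, g i j + b a) ((ht3 j).2 a)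
        refine ⟨y, hy3, ?_⟩
        rw [← hwK, abs_le]
        constructor <;> linarith
    have hmeas : ENNReal.ofReal (η * H) ≤ ENNReal.ofReal (P.ncard * w) := by
      refine h8.trans ((measure_mono hcov).trans ((measure_biUnion_finset_le _ _).trans ?_))
      simp only [Real.volume_Ico, sub_sub_cancel]
      rw [Finset.sum_const, nsmul_eq_mul, ENNReal.ofReal_mul (Nat.cast_nonneg _),
        ENNReal.ofReal_natCast, ← Set.ncard_eq_toFinset_card P hPfin]
    rw [ENNReal.ofReal_le_ofReal_iff (by positivity)] at hmeas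
    rw [hwK] at hmeas
    rw [div_mul_eq_mul_div, div_le_iff₀ hK0]
    have h11 : (P.ncard : ℝ) * (K / Real.log T) * Real.log T = P.ncard * K := by
      field_simp
    rw [← h11]
    calc η * (H * Real.log T) = η * H * Real.log T := by ring
      _ ≤ _ := mul_le_mul_of_nonneg_right hmeas hlog.le

end Pool.Agent.Results.MP_f58427_nt.CommonWindowPatterns
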