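import Pool.Agent.V1173.UR.Nb

/-!
# The law of the distance of an ordinate to its `r`-th neighbour, with no hypothesis on the zeros

Let `y_n = γ_n log γ_n / 2π` be the unfolded ordinates. Unconditionally:

* (central limit theorem over the zeros) for every `x` and `ε > 0`, if `r` is large, then for all
  large `N` the proportion of the `n ≤ N` with `y_{n+r} - y_n ≤ r + x sqrt (log r) / π` differs from
  `Φ(x)` by at most `ε`;
* (no concentration) for all `M` and `η > 0`, if `r` is large, then for all large `N` and EVERY real
  `z` the proportion of the `n ≤ N` with `|y_{n+r} - y_n - z| ≤ M` is at most `η`.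

The count `N*(T, a)` of the pair correlation conjecture is the sum over `r ≥ 1` of the numbers of the
`n` whose `r`-th neighbour is at distance at most `a`; the second statement says that no fixed `r`
contributes a positive proportion to the pairs at distance about `a`, when `a` is large.

Idea of the proof. Selberg's method gives, in mean square, an approximation of the number of
ordinates in a window of `a` mean spacings by a prime sum, up to `O(1)`, and the moments of the prime
sum are computed (starting files `TH850.UV`, `Y743.CL`, not handed in before); the passage from an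
average over `t` to an average over the zeros uses that the count changes by `O(M)` in windows moved
by `M` mean spacings. The dyadic blocks are then put together, and a grid of values of `x` gives the
uniformity in `z`.
-/

set_option autoImplicit false

open Filter

namespace Pool.Agent.Results.MP_f58427_nt.NeighbourDistances

/-- multiplicity of `s` as a zero of the Riemann zeta function (order of vanishing at `s`) -/
noncomputable def zmult (s : ℂ) : ℕ := analyticOrderNatAt riemannZeta s

/-- the number of nontrivial zeros of `ζ` with ordinate in `(0, t]`, with multiplicity -/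
noncomputable def NZ (t : ℝ) : ℕ :=
  ∑ᶠ s ∈ {s : ℂ | riemannZeta s = 0 ∧ 0 < s.re ∧ s.re < 1 ∧ 0 < s.im ∧ s.im ≤ t}, zmult s

/-- for `n ≥ 1`: the `n`-th positive ordinate `γ n` of a nontrivial zero of `ζ`, the ordinates being
listed in nondecreasing order and repeated according to multiplicity -/
noncomputable def γ (n : ℕ) : ℝ := sInf {t : ℝ | n ≤ NZ t}

/-- the unfolded ordinates `y_n = γ_n log γ_n / 2π` -/
noncomputable def y (n : ℕ) : ℝ := γ n * Real.log (γ n) / (2 * Real.pi)

/-- the distribution function of the standard normal law -/
noncomputable def Φ (x : ℝ) : ℝ := (ProbabilityTheory.gaussianReal 0 1).real (Set.Iic x)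

/-- **Theorem** (unconditional). The law of the `r`-th neighbour distances for large `r`: central
limit theorem, and absence of concentration uniformly in the position. -/
theorem result :
    (∀ x ε : ℝ, 0 < ε → ∀ᶠ r : ℕ in atTop, ∀ᶠ N : ℕ in atTop,
      |({n : ℕ | 1 ≤ n ∧ n ≤ N ∧ y (n + r) - y n ≤
        r + x * (Real.sqrt (Real.log r) / Real.pi)}.ncard : ℝ) - Φ x * N| ≤ ε * N) ∧
    (∀ M η : ℝ, 0 < η → ∀ᶠ r : ℕ in atTop, ∀ᶠ N : ℕ in atTop, ∀ z : ℝ,
      ({n : ℕ | 1 ≤ n ∧ n ≤ N ∧ |y (n + r) - y n - z| ≤ M}.ncard : ℝ) ≤ η * N) := by
  classical
  refine ⟨fun x ε hε => Pool.Agent.V1173.UR.nb_clt x hε, fun M η hη => ?_⟩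
  filter_upwards [Pool.Agent.V1173.UR.ac_index hη M] with r hr
  filter_upwards [hr] with N hN z
  have h1 := hN z
  have e1 : {n : ℕ | 1 ≤ n ∧ n ≤ N ∧ |y (n + r) - y n - z| ≤ M}.ncard =
      ((Finset.Icc 1 N).filter
        (fun n => |Pool.Agent.V1173.UR.Yu (n + r) - Pool.Agent.V1173.UR.Yu n - z| ≤ M)).card := by
    rw [← Set.ncard_coe_finset]
    congr 1
    ext n
    simp only [Set.mem_setOf_eq, Finset.coe_filter, Finset.mem_Icc, and_assoc]
    rfl
  rw [e1]
  exact h1

end Pool.Agent.Results.MP_f58427_nt.NeighbourDistances
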